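import Pool.Agent.K7.H80.EC.Stm

set_option autoImplicit false

/-! # Project EC, job FREE -/

namespace Pool.Agent.K7.H46.ECFREE

open Finset Pool.Agent.K7.H80.EC

theorem sqFree_empty (d : ℕ) : SqFree (∅ : Finset (E d)) := by
  rintro ⟨c, hc, h⟩
  simp only [Copies, mem_filter, mem_univ, true_and] at hc
  obtain ⟨hc1, hc2⟩ := hc
  obtain ⟨j, hj⟩ : c.1.Nonempty := by
    rw [← Finset.card_pos]
    omega
  have := h ⟨(c.2, j), hc2 j hj⟩ ⟨hj, fun i _ => rfl⟩
  simp at this

theorem step_sqFree {d : ℕ} {G : Finset (E d)} (h : SqFree G) (e : E d) : SqFree (step G e) := by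
  unfold step
  split_ifs with h1
  · exact h1
  · exact h

theorem foldl_sqFree {d : ℕ} (l : List (E d)) : ∀ G : Finset (E d), SqFree G →
    SqFree (l.foldl step G) := by
  induction l with
  | nil => intro G h; exact h
  | cons e l ih => intro G h; exact ih _ (step_sqFree h e)

theorem t : StFree := fun d _ => foldl_sqFree _ _ (sqFree_empty d)

end Pool.Agent.K7.H46.ECFREE
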