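import Pool.Agent.K7.H80.MD.Stm

/-! Project MD, job MIX. -/

set_option autoImplicit false

namespace Pool.Agent.K7.H46.MDMIX

open Pool.Agent.K7.H80.MD
open Finset

open Classical in
/-- number of pairs in `U × W` forming `e` -/
noncomputable def cc {n : ℕ} (U W : Finset (Fin n)) (e : Sym2 (Fin n)) : ℕ :=
  ((U ×ˢ W).filter fun q => s(q.1, q.2) = e).card

lemma cc_le {n : ℕ} (U W : Finset (Fin n)) (e : Sym2 (Fin n)) : cc U W e ≤ 2 := by
  classical
  induction e using Sym2.ind with
  | _ a b =>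
  unfold cc
  calc _ ≤ ({(a, b), (b, a)} : Finset (Fin n × Fin n)).card := by
        apply Finset.card_le_card
        intro q hq
        simp only [mem_filter, Sym2.eq_iff] at hq
        simp only [mem_insert, mem_singleton, Prod.ext_iff]
        exact hq.2
    _ ≤ 2 := Finset.card_le_two

open Classical in
lemma sum_cc {n : ℕ} (G : SimpleGraph (Fin n)) (U W : Finset (Fin n)) :
    ∑ u ∈ U, nbr G W u = ∑ e ∈ G.edgeFinset, cc U W e := by
  have h1 : ∑ u ∈ U, nbr G W u = ((U ×ˢ W).filter fun q => G.Adj q.1 q.2).card := by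
    rw [Finset.card_filter, Finset.sum_product]
    refine Finset.sum_congr rfl fun u _ => ?_
    unfold nbr
    rw [Finset.card_filter]
  rw [h1, Finset.card_eq_sum_card_fiberwise (f := fun q : Fin n × Fin n => s(q.1, q.2))
    (t := G.edgeFinset)]
  · refine Finset.sum_congr rfl fun e he => ?_
    unfold cc
    congr 1
    ext q
    simp only [mem_filter]
    constructor
    · rintro ⟨⟨h1, h2⟩, h3⟩
      exact ⟨h1, h3⟩
    · rintro ⟨h1, h3⟩
      refine ⟨⟨h1, ?_⟩, h3⟩
      have : s(q.1, q.2) ∈ G.edgeFinset := by rw [h3]; exact he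
      rw [SimpleGraph.mem_edgeFinset] at this
      exact this
  · intro q hq
    have := (mem_filter.1 hq).2
    simp only [SimpleGraph.coe_edgeFinset]
    exact this

open Classical in
/-- the non-diagonal pairs -/
noncomputable def nd (n : ℕ) : Finset (Sym2 (Fin n)) := univ.filter fun e => ¬ e.IsDiag

lemma card_nd (n : ℕ) : (nd n).card = n.choose 2 := by
  classical
  have := Sym2.card_subtype_not_diag (α := Fin n)
  rw [Fintype.card_subtype, Fintype.card_fin] at this
  rw [← this]
  unfold nd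
  congr

lemma sum_nd {n : ℕ} (U W : Finset (Fin n)) :
    ∑ e ∈ nd n, cc U W e ≤ U.card * W.card ∧ U.card * W.card ≤ ∑ e ∈ nd n, cc U W e + n := by
  classical
  have h1 : ((U ×ˢ W).filter fun q => q.1 ≠ q.2).card = ∑ e ∈ nd n, cc U W e := by
    rw [Finset.card_eq_sum_card_fiberwise (f := fun q : Fin n × Fin n => s(q.1, q.2))
      (t := nd n)]
    · refine Finset.sum_congr rfl fun e he => ?_
      unfold cc
      congr 1
      ext q
      simp only [mem_filter]
      constructor
      · rintro ⟨⟨h1, h2⟩, h3⟩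
        exact ⟨h1, h3⟩
      · rintro ⟨h1, h3⟩
        refine ⟨⟨h1, ?_⟩, h3⟩
        have h4 : ¬ e.IsDiag := (mem_filter.1 he).2
        rw [← h3, Sym2.mk_isDiag_iff] at h4
        exact h4
    · intro q hq
      have := (mem_filter.1 hq).2
      refine mem_coe.2 (mem_filter.2 ⟨mem_univ _, ?_⟩)
      rw [Sym2.mk_isDiag_iff]
      exact this
  have h2 := Finset.card_filter_add_card_filter_not (s := U ×ˢ W) (fun q => q.1 ≠ q.2)
  have h3 : ((U ×ˢ W).filter fun q => ¬ (q.1 ≠ q.2)).card ≤ n := by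
    calc _ ≤ (univ : Finset (Fin n)).card := by
          apply Finset.card_le_card_of_injOn (fun q => q.1) (fun _ _ => mem_coe.2 (mem_univ _))
          intro q hq r hr h
          have h5 := not_not.1 (mem_filter.1 hq).2
          have h6 := not_not.1 (mem_filter.1 hr).2
          ext
          · exact congrArg Fin.val h
          · have : q.2 = r.2 := by rw [← h5, ← h6]; exact h
            exact congrArg Fin.val this
      _ = n := by simp
  rw [Finset.card_product, h1] at h2
  omega

open Classical in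
/-- the weight -/
noncomputable def wt (n : ℕ) (p : ℝ) (G : SimpleGraph (Fin n)) : ℝ :=
  p ^ G.edgeFinset.card * (1 - p) ^ (n.choose 2 - G.edgeFinset.card)

lemma wt_nonneg (n : ℕ) (p : ℝ) (h0 : 0 ≤ p) (h1 : p ≤ 1) (G : SimpleGraph (Fin n)) :
    0 ≤ wt n p G :=
  mul_nonneg (pow_nonneg h0 _) (pow_nonneg (by linarith) _)

open Classical in
lemma mgf (hP : StProd) (n : ℕ) (p : ℝ) (c : Sym2 (Fin n) → ℝ) (s : ℝ) :
    ∑ G : SimpleGraph (Fin n), wt n p G * Real.exp (s * ∑ e ∈ G.edgeFinset, c e) =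
      ∏ e ∈ nd n, (p * Real.exp (s * c e) + (1 - p)) := by
  have := hP n p (fun e => Real.exp (s * c e)) (fun _ => 1)
  simp only [Finset.prod_const_one, mul_one] at this
  unfold nd
  rw [← this]
  refine Finset.sum_congr rfl fun G _ => ?_
  rw [← Real.exp_sum, Finset.mul_sum]
  rfl

lemma fac (p s c : ℝ) (n : ℕ) (hn : (1:ℝ) ≤ n) (hp0 : 0 < p) (hnp : 1 ≤ n * p)
    (hs : s ^ 2 * (4 * (n * p)) = 1) (hc0 : 0 ≤ c) (hc : c ≤ 2) :
    p * Real.exp (s * c) + (1 - p) ≤ Real.exp (s * p * c + 1 / n) := by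
  have hc2 : c ^ 2 ≤ 4 := by nlinarith
  have hnn : (0:ℝ) < n := by linarith
  have hs1 : p * (s ^ 2 * 4) = 1 / n := by
    field_simp
    linarith
  have hs2 : s ^ 2 * 4 ≤ 1 := by
    have : s ^ 2 * 4 * 1 ≤ s ^ 2 * 4 * (n * p) :=
      mul_le_mul_of_nonneg_left hnp (by positivity)
    linarith
  have h1 : (s * c) ^ 2 ≤ s ^ 2 * 4 := by
    rw [mul_pow]
    exact mul_le_mul_of_nonneg_left hc2 (sq_nonneg s)
  have h2 : |s * c| ≤ 1 := by
    rw [← sq_le_one_iff_abs_le_one]
    linarith
  have h3 := (abs_le.1 (Real.abs_exp_sub_one_sub_id_le h2)).2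
  have h4 : p * (Real.exp (s * c) - 1) ≤ s * p * c + 1 / n := by
    have : p * (Real.exp (s * c) - 1) ≤ p * (s * c + s ^ 2 * 4) :=
      mul_le_mul_of_nonneg_left (by linarith) hp0.le
    calc _ ≤ p * (s * c + s ^ 2 * 4) := this
      _ = s * p * c + p * (s ^ 2 * 4) := by ring
      _ = _ := by rw [hs1]
  calc p * Real.exp (s * c) + (1 - p) = p * (Real.exp (s * c) - 1) + 1 := by ring
    _ ≤ Real.exp (p * (Real.exp (s * c) - 1)) := Real.add_one_le_exp _
    _ ≤ _ := Real.exp_le_exp.2 h4

open Classical in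
lemma tail (hP : StProd) (n : ℕ) (p : ℝ) (hn : (1:ℝ) ≤ n) (hp0 : 0 < p) (hp1 : p ≤ 1)
    (hnp : 1 ≤ n * p) (U W : Finset (Fin n)) (s : ℝ) (hs : s ^ 2 * (4 * (n * p)) = 1) :
    ∑ G : SimpleGraph (Fin n), wt n p G *
      Real.exp (s * ((∑ e ∈ G.edgeFinset, (cc U W e : ℝ)) - p * ∑ e ∈ nd n, (cc U W e : ℝ)))
      ≤ Real.exp (n / 2) := by
  have e1 : ∀ G : SimpleGraph (Fin n), wt n p G *
      Real.exp (s * ((∑ e ∈ G.edgeFinset, (cc U W e : ℝ)) - p * ∑ e ∈ nd n, (cc U W e : ℝ))) =
      wt n p G * Real.exp (s * ∑ e ∈ G.edgeFinset, (cc U W e : ℝ)) *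
        Real.exp (- (s * p * ∑ e ∈ nd n, (cc U W e : ℝ))) := by
    intro G
    rw [mul_assoc, ← Real.exp_add]
    congr 2
    ring
  rw [Finset.sum_congr rfl fun G _ => e1 G, ← Finset.sum_mul, mgf hP n p (fun e => (cc U W e : ℝ)) s]
  have e2 : ∏ e ∈ nd n, (p * Real.exp (s * (cc U W e : ℝ)) + (1 - p)) ≤
      ∏ e ∈ nd n, Real.exp (s * p * (cc U W e : ℝ) + 1 / n) := by
    refine Finset.prod_le_prod (fun e _ => ?_) (fun e _ => ?_)
    · have := Real.exp_pos (s * (cc U W e : ℝ))
      have : 0 ≤ p * Real.exp (s * (cc U W e : ℝ)) := by positivity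
      linarith
    · exact fac p s _ n hn hp0 hnp hs (Nat.cast_nonneg _) (by exact_mod_cast cc_le U W e)
  rw [← Real.exp_sum, Finset.sum_add_distrib, ← Finset.mul_sum, Finset.sum_const, nsmul_eq_mul,
    card_nd] at e2
  calc _ ≤ Real.exp (s * p * ∑ e ∈ nd n, (cc U W e : ℝ) + (n.choose 2 : ℝ) * (1 / n)) *
        Real.exp (- (s * p * ∑ e ∈ nd n, (cc U W e : ℝ))) :=
        mul_le_mul_of_nonneg_right e2 (Real.exp_pos _).le
    _ = Real.exp ((n.choose 2 : ℝ) * (1 / n)) := by
        rw [← Real.exp_add]; congr 1; ring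
    _ ≤ _ := by
        apply Real.exp_le_exp.2
        rw [Nat.cast_choose_two]
        have hnn : (0:ℝ) < n := by linarith
        have : (n:ℝ) * (n - 1) / 2 * (1 / n) = (n - 1) / 2 := by
          field_simp
        rw [this]
        linarith

lemma num (n : ℕ) : (4:ℝ) ^ n * (2 * Real.exp (-(3 * n) + n / 2)) ≤ 2 * (1 / 2) ^ n := by
  have h1 : Real.exp (-(3 * (n:ℝ)) + n / 2) = (Real.exp (-(5 / 2))) ^ n := by
    rw [← Real.exp_nat_mul]; congr 1; ring
  have h2 : 4 * Real.exp (-(5 / 2)) ≤ 1 / 2 := by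
    rw [Real.exp_neg]
    have h3 : (8:ℝ) ≤ Real.exp (5 / 2) := by
      have a : Real.exp (5 / 2) = Real.exp 1 * Real.exp 1 * Real.exp (1 / 2) := by
        rw [← Real.exp_add, ← Real.exp_add]; norm_num
      have b := Real.exp_one_gt_d9
      have c := Real.add_one_le_exp (1 / 2 : ℝ)
      have d : (2.7:ℝ) * 2.7 ≤ Real.exp 1 * Real.exp 1 := by nlinarith
      rw [a]
      nlinarith
    rw [← div_eq_mul_inv, div_le_iff₀ (by positivity)]
    linarith
  calc (4:ℝ) ^ n * (2 * Real.exp (-(3 * n) + n / 2))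
      = 2 * (4 * Real.exp (-(5 / 2))) ^ n := by rw [h1, mul_pow]; ring
    _ ≤ 2 * (1 / 2) ^ n := by
        have := pow_le_pow_left₀ (by positivity) h2 n
        linarith

theorem t (hP : StProd) : StMix := by
  classical
  intro n p hn hp0 hp1 hnp
  have hnR : (1:ℝ) ≤ n := by exact_mod_cast hn
  set r := Real.sqrt (n * p) with hr
  have hr1 : 1 ≤ r := by
    rw [hr, Real.one_le_sqrt]; exact hnp
  have hr2 : r ^ 2 = n * p := Real.sq_sqrt (by linarith)
  set D : SimpleGraph (Fin n) → Finset (Fin n) × Finset (Fin n) → ℝ := fun G q =>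
    (∑ e ∈ G.edgeFinset, (cc q.1 q.2 e : ℝ)) - p * ∑ e ∈ nd n, (cc q.1 q.2 e : ℝ) with hD
  set s := 1 / (2 * r) with hs
  have hs0 : 0 < s := by positivity
  have hs1 : s ^ 2 * (4 * (n * p)) = 1 := by
    rw [hs, ← hr2]; field_simp; norm_num
  have hs2 : (-s) ^ 2 * (4 * (n * p)) = 1 := by
    rw [neg_sq]; exact hs1
  have key : ∀ G : SimpleGraph (Fin n), ¬ Mix G p →
      1 ≤ ∑ q : Finset (Fin n) × Finset (Fin n),
        (Real.exp (s * D G q) * Real.exp (-(3 * n)) + Real.exp (-s * D G q) * Real.exp (-(3 * n))) := by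
    intro G hG
    unfold Mix at hG
    push Not at hG
    obtain ⟨U, W, h⟩ := hG
    have h1 : (∑ u ∈ U, (nbr G W u : ℝ)) = ∑ e ∈ G.edgeFinset, (cc U W e : ℝ) := by
      exact_mod_cast sum_cc G U W
    have h2 : (∑ e ∈ nd n, (cc U W e : ℝ)) ≤ U.card * W.card := by
      exact_mod_cast (sum_nd U W).1
    have h3 : (U.card * W.card : ℝ) ≤ (∑ e ∈ nd n, (cc U W e : ℝ)) + n := by
      exact_mod_cast (sum_nd U W).2
    have h4 : 6 * n * r < |D G (U, W)| := by
      have e : (∑ u ∈ U, (nbr G W u : ℝ)) - p * U.card * W.card = D G (U, W) -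
          p * (U.card * W.card - ∑ e ∈ nd n, (cc U W e : ℝ)) := by
        rw [h1, hD]; ring
      rw [e] at h
      have h5 : |p * (U.card * W.card - ∑ e ∈ nd n, (cc U W e : ℝ))| ≤ n * r := by
        rw [abs_of_nonneg (mul_nonneg hp0.le (by linarith))]
        calc p * (U.card * W.card - ∑ e ∈ nd n, (cc U W e : ℝ)) ≤ 1 * n :=
              mul_le_mul hp1 (by linarith) (by linarith) (by norm_num)
          _ ≤ n * r := by nlinarith
      have h6 := abs_sub (D G (U, W)) (p * (U.card * W.card - ∑ e ∈ nd n, (cc U W e : ℝ)))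
      linarith
    have h5 : 3 * n < s * |D G (U, W)| := by
      have : s * (6 * n * r) < s * |D G (U, W)| := mul_lt_mul_of_pos_left h4 hs0
      have e : s * (6 * n * r) = 3 * n := by
        rw [hs]; field_simp; norm_num
      linarith
    calc (1:ℝ) ≤ Real.exp (s * D G (U, W)) * Real.exp (-(3 * n)) +
          Real.exp (-s * D G (U, W)) * Real.exp (-(3 * n)) := by
          rw [← Real.exp_add, ← Real.exp_add]
          rcases abs_cases (D G (U, W)) with ⟨h6, -⟩ | ⟨h6, -⟩
          · rw [h6] at h5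
            have := Real.one_le_exp (x := s * D G (U, W) + -(3 * n)) (by linarith)
            have := Real.exp_pos (-s * D G (U, W) + -(3 * n))
            linarith
          · rw [h6] at h5
            have := Real.one_le_exp (x := -s * D G (U, W) + -(3 * n)) (by linarith)
            have := Real.exp_pos (s * D G (U, W) + -(3 * n))
            linarith
      _ ≤ _ := Finset.single_le_sum (f := fun q : Finset (Fin n) × Finset (Fin n) =>
          (Real.exp (s * D G q) * Real.exp (-(3 * n)) + Real.exp (-s * D G q) * Real.exp (-(3 * n))))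
          (fun q _ => by positivity) (mem_univ (U, W))
  have h7 : Pr n p (fun G => ¬ Mix G p) ≤ ∑ G : SimpleGraph (Fin n), wt n p G *
      ∑ q : Finset (Fin n) × Finset (Fin n),
        (Real.exp (s * D G q) * Real.exp (-(3 * n)) + Real.exp (-s * D G q) * Real.exp (-(3 * n))) := by
    unfold Pr
    calc _ = ∑ G ∈ univ.filter (fun G : SimpleGraph (Fin n) => ¬ Mix G p), wt n p G := by
          refine Finset.sum_congr ?_ fun G _ => ?_
          · congr
          · rfl
      _ ≤ ∑ G ∈ univ.filter (fun G : SimpleGraph (Fin n) => ¬ Mix G p), wt n p G *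
          ∑ q : Finset (Fin n) × Finset (Fin n),
          (Real.exp (s * D G q) * Real.exp (-(3 * n)) + Real.exp (-s * D G q) * Real.exp (-(3 * n))) := by
          refine Finset.sum_le_sum fun G hG => ?_
          exact le_mul_of_one_le_right (wt_nonneg n p hp0.le hp1 G) (key G (mem_filter.1 hG).2)
      _ ≤ _ := by
          refine Finset.sum_le_sum_of_subset_of_nonneg (filter_subset _ _) fun G _ _ => ?_
          exact mul_nonneg (wt_nonneg n p hp0.le hp1 G)
            (Finset.sum_nonneg fun q _ => by positivity)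
  refine h7.trans ?_
  have h8 : ∑ G : SimpleGraph (Fin n), wt n p G *
      ∑ q : Finset (Fin n) × Finset (Fin n),
        (Real.exp (s * D G q) * Real.exp (-(3 * n)) + Real.exp (-s * D G q) * Real.exp (-(3 * n))) =
      ∑ q : Finset (Fin n) × Finset (Fin n),
        ((∑ G : SimpleGraph (Fin n), wt n p G * Real.exp (s * D G q)) * Real.exp (-(3 * n)) +
         (∑ G : SimpleGraph (Fin n), wt n p G * Real.exp (-s * D G q)) * Real.exp (-(3 * n))) := by
    simp only [Finset.mul_sum]
    rw [Finset.sum_comm]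
    refine Finset.sum_congr rfl fun q _ => ?_
    rw [Finset.sum_mul, Finset.sum_mul, ← Finset.sum_add_distrib]
    refine Finset.sum_congr rfl fun G _ => ?_
    ring
  rw [h8]
  calc _ ≤ ∑ q : Finset (Fin n) × Finset (Fin n), (2 * Real.exp (-(3 * (n:ℝ)) + n / 2)) := by
        refine Finset.sum_le_sum fun q _ => ?_
        have a1 := tail hP n p hnR hp0 hp1 hnp q.1 q.2 s hs1
        have a2 := tail hP n p hnR hp0 hp1 hnp q.1 q.2 (-s) hs2
        have e3 := Real.exp_pos (-(3 * (n:ℝ)))
        rw [Real.exp_add]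
        have b1 := mul_le_mul_of_nonneg_right a1 e3.le
        have b2 := mul_le_mul_of_nonneg_right a2 e3.le
        simp only [hD]
        linarith
    _ = (4:ℝ) ^ n * (2 * Real.exp (-(3 * n) + n / 2)) := by
        rw [Finset.sum_const, nsmul_eq_mul, Finset.card_univ, Fintype.card_prod,
          Fintype.card_finset, Fintype.card_fin]
        push_cast
        rw [← mul_pow]
        norm_num
    _ ≤ _ := num n

end Pool.Agent.K7.H46.MDMIX
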